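import Pool.Agent.W25.QL.Fam
import Pool.Agent.W25.UB.FinalT

/-!
# More than the proportion `4 ^ (-k)` of the admissible tuples of shifts satisfies the conjecture

There is a constant `c > 0` such that for all `k ≥ 0` and `ε > 0` there is `z` such that every
sufficiently large finite set `V` of natural numbers which misses a residue class modulo every prime
`p ≤ z` has the following two properties, where `δ = 1 / 3` if `k = 1` and `δ = (4 - c) ^ (-k)`
otherwise.

* There is one family `G` of at least `(δ - ε) |V| ^ (k+1)` ordered `(k+1)`-tuples `a` of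
  distinct elements of `V` such that for every `a` in `G` the numbers `n + a_0, ..., n + a_k` are all
  prime for infinitely many `n`; moreover, for every `η > 0` there are arbitrarily large `x` such that
  all `a` in `G` have, at the same time, at least `x ^ (1 - η)` such `n ≤ x`.
* For every `η > 0` and every large `x`, at least `(δ - ε) |V| ^ (k+1)` ordered
  `(k+1)`-tuples `a` of distinct elements of `V` have at least `x ^ (1 - η)` numbers `n ≤ x` with
  `n + a_0, ..., n + a_k` all prime.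
-/

set_option autoImplicit false

namespace Pool.Agent.Results.MP_8923e7_nt.BeyondQuarterPower

open Filter

/-- the proportion: `1 / 3` for pairs, `(4 - c) ^ (-k)` for `(k + 1)`-tuples -/
noncomputable def proportion (c : ℝ) (k : ℕ) : ℝ := if k = 1 then 1 / 3 else (1 / (4 - c)) ^ k

theorem result : ∃ c : ℝ, 0 < c ∧ c < 1 ∧ ∀ (k : ℕ) (ε : ℝ), 0 < ε → ∃ z n₀ : ℕ, ∀ V : Finset ℕ,
    (∀ p : ℕ, p ≤ z → p.Prime → ∃ r : ℕ, ∀ v ∈ V, ¬ v ≡ r [MOD p]) → n₀ ≤ V.card →
    (∃ G : Finset (Fin (k + 1) → ℕ),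
      (∀ a ∈ G, (∀ i, a i ∈ V) ∧ Function.Injective a ∧
        {n : ℕ | ∀ i, (n + a i).Prime}.Infinite) ∧
      (proportion c k - ε) * (V.card : ℝ) ^ (k + 1) ≤ (G.card : ℝ) ∧
      ∀ η : ℝ, 0 < η → ∃ᶠ x : ℝ in atTop, ∀ a ∈ G,
        x ^ (1 - η) ≤ ({n : ℕ | (n : ℝ) ≤ x ∧ ∀ i, (n + a i).Prime}.ncard : ℝ)) ∧
    (∀ η : ℝ, 0 < η → ∀ᶠ x : ℝ in atTop,
      (proportion c k - ε) * (V.card : ℝ) ^ (k + 1) ≤
        ({a : Fin (k + 1) → ℕ | (∀ i, a i ∈ V) ∧ Function.Injective a ∧
          x ^ (1 - η) ≤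
            ({n : ℕ | (n : ℝ) ≤ x ∧ ∀ i, (n + a i).Prime}.ncard : ℝ)}.ncard : ℝ)) :=
  Pool.Agent.W25.QL.fin Pool.Agent.W25.UB.thmVG

end Pool.Agent.Results.MP_8923e7_nt.BeyondQuarterPower
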