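import Mathlib
import Pool.Agent.W218.PF.Inj

/-!
For every `k`, a positive proportion of all vectors `(a_1, ..., a_k)` of distinct shifts up to `A` is such
that the number of `N ≤ x` with `N, N + a_1, ..., N + a_k` all prime is at least `θ < 1` times what the
Hardy-Littlewood conjecture predicts, for every `x` from the order `(log A)^k loglog A` to `κ A`.
-/

set_option autoImplicit false

open Finset

namespace Pool.Agent.Results.MP_8923e7_nt.LargeShiftsExact

/-- `(a_1, ..., a_k)` is admissible: no prime divides `N (N + a_1) ... (N + a_k)` for every `N` -/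
def Admissible {k : ℕ} (a : Fin k → ℕ) : Prop :=
  ∀ p : ℕ, p.Prime → ∃ N : ℕ, ¬ p ∣ N * ∏ i, (N + a i)

/-- the number of residues `N` modulo `p` for which `p` divides `N (N + a_1) ... (N + a_k)` -/
def roots {k : ℕ} (a : Fin k → ℕ) (p : ℕ) : ℕ :=
  ((range p).filter (fun N : ℕ => p ∣ N * ∏ i, (N + a i))).card

/-- the singular series of `N, N + a_1, ..., N + a_k` -/
noncomputable def series {k : ℕ} (a : Fin k → ℕ) : ℝ :=
  ∏' p : Nat.Primes, (1 - (roots a p : ℝ) / ((p : ℕ) : ℝ)) / (1 - 1 / ((p : ℕ) : ℝ)) ^ (k + 1)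

/-- the number of `N ≤ x` for which `N, N + a_1, ..., N + a_k` are all prime -/
noncomputable def count {k : ℕ} (a : Fin k → ℕ) (x : ℕ) : ℕ :=
  {N : ℕ | N ≤ x ∧ N.Prime ∧ ∀ i, (N + a i).Prime}.ncard

theorem result (k : ℕ) (hk : 1 ≤ k) (c θ : ℝ) (hc : 0 < c) (hθ : θ < 1) :
    ∃ κ : ℝ, 0 < κ ∧ ∃ A₀ : ℕ, ∀ A x : ℕ, A₀ ≤ A → c * Real.log A ^ k ≤ x / Real.log x → x ≤ κ * A →
      κ * A ^ k ≤ ({a : Fin k → ℕ | (∀ i, 1 ≤ a i ∧ a i ≤ A) ∧ Function.Injective a ∧ Admissible a ∧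
        θ * series a * (x / (Real.log x * Real.log A ^ k)) ≤ count a x}.ncard : ℝ) := by
  classical
  obtain ⟨κ, hκ, D0, h⟩ := Pool.Agent.W218.PF.final9 k hk (fun _ => 1) (fun _ => one_ne_zero) c hc θ hθ
  refine ⟨κ / 2, by positivity, max D0 (max 1 ⌈2 * (k : ℝ) ^ 2 / κ⌉₊), fun A x hA hcx hxA => ?_⟩
  have hA1 : D0 ≤ A := (le_max_left _ _).trans hA
  have hA2 : 1 ≤ A := (le_max_left _ _).trans ((le_max_right _ _).trans hA)
  have hA3 : 2 * (k : ℝ) ^ 2 / κ ≤ A := (Nat.le_ceil _).trans (by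
    exact_mod_cast (le_max_right _ _).trans ((le_max_right _ _).trans hA))
  have hxA' : (x : ℝ) ≤ κ * A := by
    have : (0 : ℝ) ≤ κ / 2 * A := by positivity
    have e : κ * A = κ / 2 * A + κ / 2 * A := by ring
    linarith
  have h1 := h A hA1 x hcx hxA'
  have h2 := Pool.Agent.W218.PF.to_inj k κ hκ A hA3 hA2 _ (filter_subset _ _) h1
  refine h2.trans ?_
  have hdvd : ∀ (a : Fin k → ℕ) (p N : ℕ), (p : ℤ) ∣ (N : ℤ) * ∏ i, ((a i : ℤ) + (1 : ℤ) * N) ↔
      p ∣ N * ∏ i, (N + a i) := by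
    intro a p N
    rw [← Int.natCast_dvd_natCast]
    push_cast
    have e : ∏ i, ((a i : ℤ) + 1 * (N : ℤ)) = ∏ i, ((N : ℤ) + a i) := by
      apply prod_congr rfl
      intro i _; ring
    rw [e]
  have hroots : ∀ (a : Fin k → ℕ) (p : ℕ),
      Pool.Agent.W218.PF.om (fun i => (a i : ℤ)) (fun _ => 1) p = roots a p := by
    intro a p
    unfold Pool.Agent.W218.PF.om roots
    congr 1
    apply filter_congr
    intro N _
    exact hdvd a p N
  have hseries : ∀ a : Fin k → ℕ, Pool.Agent.W218.PF.singular (fun i => (a i : ℤ)) (fun _ => 1) = series a := by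
    intro a
    unfold Pool.Agent.W218.PF.singular series
    congr 1
    funext p
    unfold Pool.Agent.W218.PF.fac
    rw [hroots a p]
  have hcount : ∀ a : Fin k → ℕ, Pool.Agent.W218.PF.numR (fun _ => 1) a x ≤ count a x := by
    intro a
    unfold Pool.Agent.W218.PF.numR count
    rw [← Set.ncard_coe_finset]
    apply Set.ncard_le_ncard
    · intro q hq
      rw [mem_coe, mem_filter, mem_Icc] at hq
      refine ⟨hq.1.2, hq.2.1, fun i => ?_⟩
      have h3 := hq.2.2 i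
      have e : (a i : ℤ) + 1 * (q : ℤ) = ((q + a i : ℕ) : ℤ) := by push_cast; ring
      rw [e, Int.toNat_natCast] at h3
      exact h3
    · exact (Set.finite_Iic x).subset fun q hq => hq.1
  have hfin : {a : Fin k → ℕ | (∀ i, 1 ≤ a i ∧ a i ≤ A) ∧ Function.Injective a ∧ Admissible a ∧
        θ * series a * (x / (Real.log x * Real.log A ^ k)) ≤ count a x}.Finite := by
    apply ((Fintype.piFinset (fun _ : Fin k => Icc 1 A)).finite_toSet).subset
    intro a ha
    rw [mem_coe, Fintype.mem_piFinset]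
    intro i
    exact mem_Icc.2 (ha.1 i)
  rw [← Set.ncard_coe_finset]
  refine Nat.cast_le.2 (Set.ncard_le_ncard ?_ hfin)
  intro a ha
  rw [mem_coe, mem_filter, mem_filter, Fintype.mem_piFinset] at ha
  obtain ⟨⟨h3, h4, h5⟩, h6⟩ := ha
  refine ⟨fun i => mem_Icc.1 (h3 i), h6, ?_, ?_⟩
  · intro p hp
    obtain ⟨N, hN⟩ := h4 p hp
    exact ⟨N, fun hd => hN ((hdvd a p N).2 hd)⟩
  · rw [hseries a] at h5
    exact h5.trans (Nat.cast_le.2 (hcount a))

end Pool.Agent.Results.MP_8923e7_nt.LargeShiftsExact
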