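import Pool.Agent.W23.UL.All

/-!
A Hardy-Littlewood law for almost all vectors of polynomial shifts in EVERY set of integers of logarithmic
density (in particular in every set of primes of logarithmic relative density).

Let `f_1, ..., f_k` be fixed nonconstant integer polynomials with positive leading coefficients.  For EVERY bounded
function `g` on the integers `n ≤ N` and all vectors `m` of the box outside an exceptional set which is smaller than
any power of the logarithm,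
`∑ g(n) ∏ Λ(part of n + f_i(m_i) composed of primes > z) = V(z)^(-k) ∑ g(n) + O(N/(log N)^U)`,
with `z` any power of `log N` with sufficiently large exponent: there is no singular series.  Consequently every set
`A` of at least `N/(log N)^C` integers `≤ N` contains `~ |A|/(V(z) log N)^k` elements `n` for which every
`n + f_i(m_i)` is a prime times a product of primes `≤ z`.
-/

namespace Pool.Agent.Results.MP_8923e7_nt.UniversalShifts

open Finset Polynomial

/-- the part of `n` composed of the primes `> z` -/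
def rough (z n : ℕ) : ℕ := (n.primeFactorsList.filter (fun p => z < p)).prod

/-- `Λ` of the rough part of the integer `v`; `0` for `v ≤ 0` -/
noncomputable def LR (z : ℕ) (v : ℤ) : ℝ :=
  if 1 ≤ v then ArithmeticFunction.vonMangoldt (rough z v.toNat) else 0

/-- Mertens' product over the primes `≤ z` -/
noncomputable def V (z : ℕ) : ℝ := ∏ p ∈ (Icc 1 z).filter Nat.Prime, (1 - 1 / (p : ℝ))

/-- the positive integer `v` is a prime times a product of primes `≤ z` -/
def AP (z : ℕ) (v : ℤ) : Prop := 1 ≤ v ∧ (rough z v.toNat).Prime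

open Classical in
theorem result (k : ℕ) (f : Fin k → ℤ[X]) (hf : ∀ i, 1 ≤ (f i).natDegree)
    (hl : ∀ i, 0 < (f i).leadingCoeff) (B : ℕ) (hB : 1 ≤ B) :
    (∀ U : ℕ, ∃ B₀ : ℕ, ∀ E : ℕ, ∃ N₀ : ℕ, ∀ N : ℕ, N₀ ≤ N → ∀ x : Fin k → ℕ,
      (∀ i, N ≤ B * x i ^ (f i).natDegree ∧ x i ^ (f i).natDegree ≤ B * N) →
      ∀ z : ℕ, Real.log N ^ B₀ ≤ z → (z : ℝ) ≤ Real.log N ^ E →
      ∀ g : ℕ → ℝ, (∀ n, |g n| ≤ 1) →
      ∃ H : Finset (Fin k → ℕ), (H.card : ℝ) ≤ (∏ i, (x i : ℝ)) / Real.log N ^ U ∧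
        ∀ m ∈ Fintype.piFinset (fun i => Icc 1 (x i)), m ∉ H →
          |∑ n ∈ Icc 1 N, g n * ∏ i, LR z ((n : ℤ) + (f i).eval (m i : ℤ)) -
            (V z)⁻¹ ^ k * ∑ n ∈ Icc 1 N, g n| ≤ N / Real.log N ^ U) ∧
    (∀ (C U : ℕ) (ε : ℝ), 0 < ε → ∃ B₀ : ℕ, ∀ E : ℕ, ∃ N₀ : ℕ, ∀ N : ℕ, N₀ ≤ N → ∀ x : Fin k → ℕ,
      (∀ i, N ≤ B * x i ^ (f i).natDegree ∧ x i ^ (f i).natDegree ≤ B * N) →
      ∀ z : ℕ, Real.log N ^ B₀ ≤ z → (z : ℝ) ≤ Real.log N ^ E →
      ∀ A : Finset ℕ, A ⊆ Icc 1 N → N / Real.log N ^ C ≤ (A.card : ℝ) →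
      ∃ H : Finset (Fin k → ℕ), (H.card : ℝ) ≤ (∏ i, (x i : ℝ)) / Real.log N ^ U ∧
        ∀ m ∈ Fintype.piFinset (fun i => Icc 1 (x i)), m ∉ H →
          |((A.filter (fun n : ℕ => ∀ i, AP z ((n : ℤ) + (f i).eval (m i : ℤ)))).card : ℝ) -
            A.card / (V z * Real.log N) ^ k| ≤ ε * (A.card / (V z * Real.log N) ^ k)) := by
  refine ⟨fun U => ?_, fun C U ε hε => ?_⟩
  · exact Pool.Agent.W23.UL.law_thm k f hf hl B hB U
  · exact Pool.Agent.W23.UL.count_thm k f hf hl B hB C U ε hε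

end Pool.Agent.Results.MP_8923e7_nt.UniversalShifts
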